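import Pool.Agent.Q153.CkUniv

/-!
The class `C_k[M]` is not closed under arbitrary topological sums.
-/

set_option autoImplicit false

open TopologicalSpace Topology

namespace Pool.Agent.Results.MP_041d76_gt.SumsFail

/-- The class `C_k[M]`: the spaces that embed into `C_k(X, Y)` with `X` separable metrizable and `Y`
metrizable. -/
def InClass (S : Type) [TopologicalSpace S] : Prop :=
  ∃ (X Y : Type) (_ : TopologicalSpace X) (_ : TopologicalSpace Y),
    SeparableSpace X ∧ MetrizableSpace X ∧ MetrizableSpace Y ∧ ∃ e : S → C(X, Y), IsEmbedding e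

/-- The class `C_k[M₀]`: the spaces that embed into `C_k(X, Y)` with `X`, `Y` separable
metrizable. -/
def InClass₀ (S : Type) [TopologicalSpace S] : Prop :=
  ∃ (X Y : Type) (_ : TopologicalSpace X) (_ : TopologicalSpace Y),
    SeparableSpace X ∧ MetrizableSpace X ∧ SeparableSpace Y ∧ MetrizableSpace Y ∧
    ∃ e : S → C(X, Y), IsEmbedding e

theorem inClass₀_ck (Z : Set ℝ) : InClass₀ C(Z, ℝ) :=
  ⟨Z, ℝ, inferInstance, inferInstance, inferInstance, inferInstance, inferInstance, inferInstance,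
    id, IsEmbedding.id⟩

/-- There is a family of spaces of the form `C_k(Z)` with `Z` a set of reals, so of members of
`C_k[M₀]` (in particular of `C_k[M]`), whose topological sum does not belong to `C_k[M]`. -/
theorem result :
    ∃ (I : Type) (S : I → Type) (_ : ∀ j, TopologicalSpace (S j)),
      (∀ j, InClass₀ (S j)) ∧ (∀ j, InClass (S j)) ∧ ¬ InClass (Σ j, S j) := by
  refine ⟨Set ℝ, fun Z => C(Z, ℝ), fun Z => inferInstance, inClass₀_ck, fun Z => ?_, ?_⟩
  · obtain ⟨X, Y, _, _, h1, h2, -, h3, h4⟩ := inClass₀_ck Z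
    exact ⟨X, Y, _, _, h1, h2, h3, h4⟩
  · rintro ⟨X, Y, _, _, _, _, _, e, he⟩
    obtain ⟨Z, hZ⟩ := Pool.Agent.Q153.CkUniv.exists_not_embeddable X
    exact hZ Y (e ∘ Sigma.mk (β := fun Z : Set ℝ => C(Z, ℝ)) Z)
      (he.comp IsEmbedding.sigmaMk).isInducing

end Pool.Agent.Results.MP_041d76_gt.SumsFail
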